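import Pool.Agent.Helper41.LD6.Defs

/-!
# LD6, block H5: products of Haar functions, weights
-/

set_option autoImplicit false

namespace Pool.Agent.Helper4.LD6

open Set MeasureTheory
open Pool.Agent.Helper41.LD (av var haar)
open Pool.Agent.Helper41.LD6

private theorem lv_zero {n : ℕ} : lv n = 0 ↔ n = 0 := by
  unfold lv
  split_ifs with h
  · simp [h]
  · simp [h]

private theorem lv_lt {K n : ℕ} (hn : n < 2 ^ K) : lv n < K + 1 := by
  unfold lv
  split_ifs with h
  · omega
  · have := Nat.log_lt_of_lt_pow h hn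
    omega

private theorem lv_one {n n' : ℕ} (h : lv n = lv n') {y : ℝ} (h1 : hr n y ≠ 0) (h2 : hr n' y ≠ 0) : n = n' := by
  by_cases hn : n = 0
  · have : lv n' = 0 := by rw [← h, hn, lv_zero.2 rfl]
    rw [hn, lv_zero.1 this]
  have hn' : n' ≠ 0 := by
    intro h0
    rw [h0, lv_zero.2 rfl] at h
    exact hn (lv_zero.1 h)
  have hl : Nat.log 2 n = Nat.log 2 n' := by
    unfold lv at h
    rw [if_neg hn, if_neg hn'] at h
    omega
  have idx : ∀ {k i : ℕ} {t : ℝ}, haar k i t ≠ 0 → (i : ℤ) = ⌊(2 : ℝ) ^ (k + 1) * Int.fract t⌋ / 2 := by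
    intro k i t h
    by_contra hno
    apply h
    unfold haar Pool.Agent.Helper41.LD.ind
    rw [if_neg, if_neg, sub_zero]
    · intro h1
      rw [h1] at hno
      push_cast at hno
      omega
    · intro h1
      rw [h1] at hno
      push_cast at hno
      omega
  have e1 : hr n y = haar (Nat.log 2 n) (n - 2 ^ Nat.log 2 n) y := by
    unfold hr
    rw [if_neg hn]
  have e2 : hr n' y = haar (Nat.log 2 n') (n' - 2 ^ Nat.log 2 n') y := by
    unfold hr
    rw [if_neg hn']
  rw [e1] at h1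
  rw [e2] at h2
  have h3 := idx h1
  have h4 := idx h2
  rw [hl] at h3
  have h5 := Nat.pow_log_le_self 2 hn
  have h6 := Nat.pow_log_le_self 2 hn'
  rw [hl] at h5
  rw [← h4] at h3
  have h7 : n - 2 ^ Nat.log 2 n' = n' - 2 ^ Nat.log 2 n' := by exact_mod_cast h3
  omega

private theorem hr_abs (n : ℕ) (y : ℝ) : |hr n y| ≤ 1 := by
  unfold hr
  split_ifs
  · simp
  · unfold haar Pool.Agent.Helper41.LD.ind
    split_ifs <;> norm_num

private theorem hr_lev (K l : ℕ) (y : ℝ) : ∑ n ∈ Finset.range (2 ^ K) with lv n = l, |hr n y| ≤ 1 := by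
  by_cases h : ∃ n ∈ (Finset.range (2 ^ K)).filter (fun n => lv n = l), hr n y ≠ 0
  · obtain ⟨n, hn, hn0⟩ := h
    rw [Finset.sum_eq_single_of_mem n hn]
    · exact hr_abs n y
    · intro n' hn' hne
      by_contra h0
      apply hne
      simp only [Finset.mem_filter] at hn hn'
      exact lv_one (by rw [hn.2, hn'.2]) (fun h => h0 (by rw [h, abs_zero])) hn0
  · push Not at h
    rw [Finset.sum_eq_zero]
    · exact zero_le_one
    · intro n hn
      rw [h n hn, abs_zero]

private theorem vr_sum (K l : ℕ) : ∑ n ∈ Finset.range (2 ^ K) with lv n = l, vr n ≤ 1 := by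
  by_cases hl : l = 0
  · have h1 : (Finset.range (2 ^ K)).filter (fun n => lv n = l) ⊆ {0} := by
      intro n hn
      simp only [Finset.mem_filter] at hn
      rw [hl] at hn
      simp [lv_zero.1 hn.2]
    refine (Finset.sum_le_sum_of_subset_of_nonneg h1 fun n _ _ => ?_).trans ?_
    · unfold vr
      positivity
    · simp [vr]
  · obtain ⟨k, rfl⟩ := Nat.exists_eq_succ_of_ne_zero hl
    have h0 : ∀ n, lv n = k + 1 → n ≠ 0 ∧ Nat.log 2 n = k := by
      intro n hn
      have hn0 : n ≠ 0 := by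
        intro h0
        rw [h0, lv_zero.2 rfl] at hn
        omega
      refine ⟨hn0, ?_⟩
      unfold lv at hn
      rw [if_neg hn0] at hn
      omega
    have h1 : (Finset.range (2 ^ K)).filter (fun n => lv n = k + 1) ⊆ Finset.Ico (2 ^ k) (2 ^ (k + 1)) := by
      intro n hn
      simp only [Finset.mem_filter] at hn
      obtain ⟨h2, h3⟩ := h0 n hn.2
      rw [Finset.mem_Ico, ← h3]
      exact ⟨Nat.pow_log_le_self 2 h2, Nat.lt_pow_succ_log_self (by norm_num) n⟩
    rw [Finset.sum_congr rfl (g := fun _ => ((1:ℝ) / 2) ^ k)]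
    · rw [Finset.sum_const, nsmul_eq_mul]
      have h4 := Finset.card_le_card h1
      rw [Nat.card_Ico] at h4
      have h5 : (((Finset.range (2 ^ K)).filter (fun n => lv n = k + 1)).card : ℝ) ≤ 2 ^ k := by
        have : ((Finset.range (2 ^ K)).filter (fun n => lv n = k + 1)).card ≤ 2 ^ k := by
          rw [pow_succ] at h4
          omega
        exact_mod_cast this
      calc (((Finset.range (2 ^ K)).filter (fun n => lv n = k + 1)).card : ℝ) * (1 / 2) ^ k ≤ 2 ^ k * (1 / 2) ^ k := by gcongr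
        _ = 1 := by
            rw [← mul_pow]
            norm_num
    · intro n hn
      simp only [Finset.mem_filter] at hn
      unfold vr
      rw [(h0 n hn.2).2]

private theorem vr_lo {K n : ℕ} (hn : n < 2 ^ K) : (1 / 2) ^ K ≤ vr n ∧ vr n ≤ 1 := by
  unfold vr
  refine ⟨?_, pow_le_one₀ (by norm_num) (by norm_num)⟩
  apply pow_le_pow_of_le_one (by norm_num) (by norm_num)
  have := lv_lt hn
  by_cases h : n = 0
  · simp [h]
  · exact (Nat.log_lt_of_lt_pow h hn).le

variable {d K : ℕ}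

theorem lev_mem {q : Fin (d + 1) → ℕ} (hq : q ∈ Qs d K) : lev q ∈ Lv d K := by
  simp only [Qs, Finset.mem_filter, Fintype.mem_piFinset, Finset.mem_range] at hq
  simp only [Lv, Finset.mem_filter, Fintype.mem_piFinset, Finset.mem_range]
  exact ⟨fun i => lv_lt (hq.1 i), fun h => hq.2 (lv_zero.1 h)⟩

theorem dm_lev (q : Fin (d + 1) → ℕ) : dm (lev q) = dm q := by
  unfold dm lev
  congr 1
  ext i
  simp [lv_zero]

theorem dm_le (q : Fin (d + 1) → ℕ) : dm q ≤ d + 1 := by
  unfold dm
  refine Finset.sup_le fun i _ => ?_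
  have := i.2
  omega

theorem dm_pos {q : Fin (d + 1) → ℕ} (hq : q 0 ≠ 0) : 1 ≤ dm q ∧ dm q ≤ d + 1 := by
  refine ⟨?_, dm_le q⟩
  unfold dm
  have := Finset.le_sup (f := fun i : Fin (d + 1) => (i : ℕ) + 1)
    (s := Finset.univ.filter fun i : Fin (d + 1) => q i ≠ 0) (b := 0) (by simp [hq])
  simpa using this

theorem om_pos (K : ℕ) (l : Fin (d + 1) → ℕ) : 0 < om K l ∧ om K l ≤ 1 := by
  unfold om
  refine ⟨by positivity, pow_le_one₀ (by positivity) ?_⟩
  rw [div_le_one (by positivity)]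
  have : (0:ℝ) ≤ K := Nat.cast_nonneg K
  linarith

theorem om_lo (K : ℕ) (l : Fin (d + 1) → ℕ) : (1 / (2 * ((K : ℝ) + 1))) ^ (d + 1) ≤ om K l := by
  unfold om
  apply pow_le_pow_of_le_one (by positivity) _ (dm_le l)
  rw [div_le_one (by positivity)]
  have : (0:ℝ) ≤ K := Nat.cast_nonneg K
  linarith

/-- few levels with `j` coordinates -/
theorem card_dm (d K j : ℕ) : ((Lv d K).filter fun l => dm l = j).card ≤ (K + 1) ^ j := by
  by_cases hj : j ≤ d + 1
  · have h1 : (Fintype.piFinset fun _ : Fin j => Finset.range (K + 1)).card = (K + 1) ^ j := by simp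
    rw [← h1]
    apply Finset.card_le_card_of_injOn fun l => fun i : Fin j => l (Fin.castLE hj i)
    · intro l hl
      simp only [Lv, Finset.coe_filter, Finset.mem_filter, Fintype.mem_piFinset, Finset.mem_range, Set.mem_ofPred_eq] at hl
      simp only [Finset.mem_coe, Fintype.mem_piFinset, Finset.mem_range]
      exact fun i => hl.1.1 _
    · intro l hl l' hl' h
      simp only [Finset.coe_filter, Set.mem_ofPred_eq] at hl hl'
      funext i
      by_cases hi : (i : ℕ) < j
      · have := congrFun h ⟨i, hi⟩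
        simpa using this
      · have key : ∀ l : Fin (d + 1) → ℕ, dm l = j → l i = 0 := by
          intro l hl
          by_contra h0
          have := Finset.le_sup (f := fun i : Fin (d + 1) => (i : ℕ) + 1)
            (s := Finset.univ.filter fun i : Fin (d + 1) => l i ≠ 0) (b := i) (by simp [h0])
          unfold dm at hl
          rw [hl] at this
          omega
        rw [key l hl.2, key l' hl'.2]
  · have : ((Lv d K).filter fun l => dm l = j) = ∅ := by
      rw [Finset.filter_eq_empty_iff]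
      intro l _ h
      have := dm_le l
      omega
    rw [this]
    simp

theorem om_sum (d K : ℕ) : ∑ l ∈ Lv d K, om K l ≤ 1 := by
  have h1 : ∑ l ∈ Lv d K, om K l = ∑ j ∈ Finset.Icc 1 (d + 1), ∑ l ∈ Lv d K with dm l = j, om K l := by
    rw [Finset.sum_fiberwise_of_maps_to]
    intro l hl
    simp only [Lv, Finset.mem_filter] at hl
    have := dm_pos hl.2
    simp [this]
  rw [h1]
  have h2 : ∀ j, ∑ l ∈ Lv d K with dm l = j, om K l ≤ (1 / 2) ^ j := by
    intro j
    have h3 : ∑ l ∈ Lv d K with dm l = j, om K l = (((Lv d K).filter fun l => dm l = j).card : ℝ) * (1 / (2 * ((K : ℝ) + 1))) ^ j := by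
      rw [Finset.sum_congr rfl (g := fun _ => (1 / (2 * ((K : ℝ) + 1))) ^ j)]
      · simp
      · intro l hl
        simp only [Finset.mem_filter] at hl
        unfold om
        rw [hl.2]
    rw [h3]
    have h4 : (((Lv d K).filter fun l => dm l = j).card : ℝ) ≤ ((K : ℝ) + 1) ^ j := by
      exact_mod_cast card_dm d K j
    have hK : (0:ℝ) < (K : ℝ) + 1 := by positivity
    calc (((Lv d K).filter fun l => dm l = j).card : ℝ) * (1 / (2 * ((K : ℝ) + 1))) ^ j
        ≤ ((K : ℝ) + 1) ^ j * (1 / (2 * ((K : ℝ) + 1))) ^ j := by gcongr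
      _ = (1 / 2) ^ j := by
          rw [← mul_pow]
          congr 1
          field_simp
  have h5 : ∀ D : ℕ, ∑ j ∈ Finset.Icc 1 D, (1 / 2 : ℝ) ^ j ≤ 1 - (1 / 2) ^ D := by
    intro D
    induction D with
    | zero => simp
    | succ D ih =>
      rw [Finset.sum_Icc_succ_top (by omega), pow_succ]
      linarith
  refine (Finset.sum_le_sum fun j _ => h2 j).trans ((h5 (d + 1)).trans ?_)
  have : (0:ℝ) < (1 / 2) ^ (d + 1) := by positivity
  linarith

/-- the functions of a level -/
theorem lev_sub (l : Fin (d + 1) → ℕ) : (Qs d K).filter (fun q => lev q = l) ⊆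
    Fintype.piFinset fun i => (Finset.range (2 ^ K)).filter fun n => lv n = l i := by
  intro q hq
  simp only [Qs, Finset.mem_filter, Fintype.mem_piFinset, Finset.mem_range] at hq
  simp only [Fintype.mem_piFinset, Finset.mem_filter, Finset.mem_range]
  exact fun i => ⟨hq.1.1 i, congrFun hq.2 i⟩

theorem lev_gen (l : Fin (d + 1) → ℕ) (g : Fin (d + 1) → ℕ → ℝ) (hg : ∀ i n, 0 ≤ g i n)
    (h : ∀ i, ∑ n ∈ Finset.range (2 ^ K) with lv n = l i, g i n ≤ 1) :
    ∑ q ∈ Qs d K with lev q = l, ∏ i, g i (q i) ≤ 1 := by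
  calc ∑ q ∈ Qs d K with lev q = l, ∏ i, g i (q i)
      ≤ ∑ q ∈ Fintype.piFinset fun i => (Finset.range (2 ^ K)).filter fun n => lv n = l i, ∏ i, g i (q i) :=
        Finset.sum_le_sum_of_subset_of_nonneg (lev_sub l) fun q _ _ => Finset.prod_nonneg fun i _ => hg i _
    _ = ∏ i, ∑ n ∈ Finset.range (2 ^ K) with lv n = l i, g i n := by
        rw [Finset.prod_univ_sum]
    _ ≤ 1 := Finset.prod_le_one (fun i _ => Finset.sum_nonneg fun n _ => hg i n) fun i _ => h i

theorem lev_sum6 (l : Fin (d + 1) → ℕ) (y : Fin (d + 1) → ℝ) : ∑ q ∈ Qs d K with lev q = l, |∏ i, hr (q i) (y i)| ≤ 1 := by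
  have := lev_gen (K := K) l (fun i n => |hr n (y i)|) (fun _ _ => abs_nonneg _) (fun i => hr_lev K (l i) (y i))
  simpa only [Finset.abs_prod] using this

theorem vr_pos (n : ℕ) : 0 ≤ vr n := by
  unfold vr
  positivity

theorem mu_sum (d K : ℕ) : ∑ q ∈ Qs d K, om K (lev q) ^ 2 * vq q ≤ 1 := by
  have h1 : ∑ q ∈ Qs d K, om K (lev q) ^ 2 * vq q = ∑ l ∈ Lv d K, ∑ q ∈ Qs d K with lev q = l, om K (lev q) ^ 2 * vq q :=
    (Finset.sum_fiberwise_of_maps_to (fun q hq => lev_mem hq) _).symm
  rw [h1]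
  refine (Finset.sum_le_sum fun l _ => ?_).trans (om_sum d K)
  have h2 : ∑ q ∈ Qs d K with lev q = l, om K (lev q) ^ 2 * vq q = om K l ^ 2 * ∑ q ∈ Qs d K with lev q = l, vq q := by
    rw [Finset.mul_sum]
    refine Finset.sum_congr rfl fun q hq => ?_
    simp only [Finset.mem_filter] at hq
    rw [hq.2]
  rw [h2]
  have h3 : ∑ q ∈ Qs d K with lev q = l, vq q ≤ 1 :=
    lev_gen (K := K) l (fun _ n => vr n) (fun _ n => vr_pos n) (fun i => vr_sum K (l i))
  obtain ⟨h4, h5⟩ := om_pos K l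
  have h6 : 0 ≤ ∑ q ∈ Qs d K with lev q = l, vq q :=
    Finset.sum_nonneg fun q _ => Finset.prod_nonneg fun i _ => vr_pos _
  nlinarith [mul_nonneg h4.le (sub_nonneg.2 h5), mul_nonneg (sq_nonneg (om K l)) (sub_nonneg.2 h3)]

theorem Qs_card (d K : ℕ) : (Qs d K).card ≤ 2 ^ (K * (d + 1)) := by
  refine (Finset.card_filter_le _ _).trans ?_
  rw [Fintype.card_piFinset]
  simp [pow_mul]

theorem vq_lo {q : Fin (d + 1) → ℕ} (hq : q ∈ Qs d K) : (1 / 2) ^ (K * (d + 1)) ≤ vq q ∧ vq q ≤ 1 := by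
  simp only [Qs, Finset.mem_filter, Fintype.mem_piFinset, Finset.mem_range] at hq
  unfold vq
  constructor
  · have := Finset.prod_le_prod (s := Finset.univ) (f := fun _ : Fin (d + 1) => ((1:ℝ) / 2) ^ K) (g := fun i => vr (q i))
      (fun i _ => by positivity) (fun i _ => (vr_lo (hq.1 i)).1)
    simpa [pow_mul] using this
  · exact Finset.prod_le_one (fun i _ => vr_pos _) fun i _ => (vr_lo (hq.1 i)).2

theorem Qs_ne {K : ℕ} (hK : 1 ≤ K) : (Qs d K).Nonempty := by
  refine ⟨fun _ => 1, ?_⟩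
  simp only [Qs, Finset.mem_filter, Fintype.mem_piFinset, Finset.mem_range]
  refine ⟨fun _ => ?_, by norm_num⟩
  exact Nat.one_lt_two_pow (by omega)

end Pool.Agent.Helper4.LD6
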