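import Pool.Agent.Helper76.LD6.Num
import Pool.Agent.Helper68.LD6.TTB1

/-!
# LD6, block NBB: the children with a boundary of the grid at an old time
-/

set_option autoImplicit false

namespace Pool.Agent.Helper4.LD6

open Set MeasureTheory Filter Topology
open Pool.Agent.Helper41.LD4 (NBg)
open Pool.Agent.Helper41.LD6
open Pool.Agent.Helper76.LD6 (num_K num_Z num_E num_le num_pow)
open Pool.Agent.Helper94.LD6 (Vf_step Vf_nonneg Vf_near Uf_mono Uf_sub)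
open Pool.Agent.Helper68.LD6 (lt_Tt Tt_le)

/-- the first time of the stage -/
theorem start_le {F : Pm} {K : ℕ} {a₀ ℓst : ℝ} (hF : F.Ok) (S : F.St K a₀ ℓst) :
    Tt F.A₀ (F.Th K) a₀ ℓst ≤ F.X * (F.X + 2 ^ (2 * K) + F.C₁ * F.E K) + 1 := by
  apply Tt_le
  obtain ⟨k, hk⟩ : ∃ k, k = F.X + 2 ^ (2 * K) + F.C₁ * F.E K := ⟨_, rfl⟩
  rw [← hk]
  unfold Vf
  rw [Nat.add_sub_cancel]
  have hx0 : 0 < F.x₁ := by linarith [hF.h1]
  have h1 : (2 : ℝ) ^ k ≤ a₀ ^ (F.X * k) := by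
    calc (2 : ℝ) ^ k ≤ (F.x₁ ^ F.X) ^ k := pow_le_pow_left₀ (by norm_num) hF.hx1 _
      _ = F.x₁ ^ (F.X * k) := (pow_mul _ _ _).symm
      _ ≤ a₀ ^ (F.X * k) := pow_le_pow_left₀ hx0.le S.lo _
  have h2 : (1 : ℝ) ≤ ((F.X * k + 1 : ℕ) : ℝ) := by
    push_cast
    have : (0 : ℝ) ≤ (F.X : ℝ) * k := by positivity
    linarith
  have h3 : (2 : ℝ) ^ k = 2 ^ F.X * 2 ^ (2 ^ (2 * K)) * 2 ^ (F.C₁ * F.E K) := by
    rw [hk, pow_add, pow_add]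
  have h4 : F.Th K = 2 ^ (F.C₁ * F.E K) := rfl
  have hA := hF.hA
  have hℓ := S.pos
  rw [h4]
  have hp : (0 : ℝ) < 2 ^ (F.C₁ * F.E K) := by positivity
  have h5 : 1 ≤ (F.A₀ * 2 ^ F.X) * (ℓst * 2 ^ (2 ^ (2 * K))) := one_le_mul_of_one_le_of_one_le hF.hA2 S.lg
  calc (2 : ℝ) ^ (F.C₁ * F.E K) ≤ (F.A₀ * 2 ^ F.X) * (ℓst * 2 ^ (2 ^ (2 * K))) * 2 ^ (F.C₁ * F.E K) :=
        le_mul_of_one_le_left hp.le h5
    _ = F.A₀ * 1 * 2 ^ k * ℓst := by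
        rw [h3]
        ring
    _ ≤ F.A₀ * ((F.X * k + 1 : ℕ) : ℝ) * a₀ ^ (F.X * k) * ℓst := by gcongr

/-- the derivatives at the end of the stage -/
theorem V_end {F : Pm} {K : ℕ} {a₀ ℓst x : ℝ} {j : ℕ} (hF : F.Ok) (hK : F.Big K) (S : F.St K a₀ ℓst)
    (hax : a₀ ≤ x) (hx : x ≤ a₀ + ℓst) (hj : j ≤ 2 ^ (2 * K) + F.d) : F.V K a₀ ℓst j x ≤ 2 * F.V K a₀ ℓst j a₀ := by
  have h0 := start_le hF S
  have hZ := num_Z hK
  have hK12 := num_K hK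
  have hl := num_le F
  have hE := (num_E F K).2.1
  have hpw := (num_pow hK).1
  have hE2 : F.E K ≤ K * K := hE.trans (Nat.mul_le_mul_right _ hZ.2.2)
  have hC : F.C₁ ≤ K := by omega
  have hX : F.X ≤ K := by omega
  have hd : F.d ≤ K := by omega
  have h1 : F.X * (F.X + 2 ^ (2 * K) + F.C₁ * F.E K) ≤ K * (K + 2 ^ (2 * K) + K * (K * K)) :=
    Nat.mul_le_mul hX (Nat.add_le_add (Nat.add_le_add hX le_rfl) (Nat.mul_le_mul hC hE2))
  have hK4 : 3 * K + 1 ≤ K ^ 4 := by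
    have : K ^ 4 = K * (K * K * K) := by ring
    rw [this]
    have h2 : 4 ≤ K * K * K := by
      calc 4 ≤ K * 1 * 1 := by omega
        _ ≤ K * K * K := Nat.mul_le_mul (Nat.mul_le_mul_left _ (by omega)) (by omega)
    calc 3 * K + 1 ≤ K * 4 := by omega
      _ ≤ K * (K * K * K) := Nat.mul_le_mul_left _ h2
  have h2 : K * (K + 2 ^ (2 * K) + K * (K * K)) + 1 + (2 ^ (2 * K) + F.d) ≤ 2 ^ (3 * K) := by
    have e1 : K * K + K * (K * (K * K)) + 1 + K ≤ K ^ 20 := by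
      have e2 : K * K + K * (K * (K * K)) + 1 + K ≤ 4 * K ^ 4 := by
        have e3 : K * (K * (K * K)) = K ^ 4 := by ring
        have e4 : K * K ≤ K ^ 4 := by
          calc K * K = K ^ 2 := by ring
            _ ≤ K ^ 4 := Nat.pow_le_pow_right (by omega) (by norm_num)
        have e5 : K ≤ K ^ 4 := Nat.le_self_pow (by norm_num) _
        omega
      have e6 : 4 * K ^ 4 ≤ K ^ 20 := by
        calc 4 * K ^ 4 ≤ K ^ 16 * K ^ 4 := Nat.mul_le_mul_right _ (by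
              have : K ≤ K ^ 16 := Nat.le_self_pow (by norm_num) _
              omega)
          _ = K ^ 20 := by ring
      exact e2.trans e6
    have e7 : 2 ^ K ≤ 2 ^ (2 * K) := Nat.pow_le_pow_right (by norm_num) (by omega)
    have e8 : K + 2 ≤ 2 ^ K := by
      have : K ^ 2 ≤ K ^ 20 := Nat.pow_le_pow_right (by omega) (by norm_num)
      have h3 : K + 2 ≤ K ^ 2 := by
        calc K + 2 ≤ K * 2 := by omega
          _ ≤ K * K := Nat.mul_le_mul_left _ (by omega)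
          _ = K ^ 2 := by ring
      exact h3.trans (this.trans hpw)
    have e9 : 2 ^ (3 * K) = 2 ^ K * 2 ^ (2 * K) := by
      rw [← pow_add]
      congr 1
      ring
    have e10 : (K + 2) * 2 ^ (2 * K) ≤ 2 ^ (3 * K) := by
      rw [e9]
      exact Nat.mul_le_mul_right _ e8
    have e11 : K * (K + 2 ^ (2 * K) + K * (K * K)) + 1 + (2 ^ (2 * K) + F.d) =
        (K * K + K * (K * (K * K)) + 1 + F.d) + (K + 1) * 2 ^ (2 * K) := by ring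
    rw [e11]
    have e12 : (K + 2) * 2 ^ (2 * K) = (K + 1) * 2 ^ (2 * K) + 2 ^ (2 * K) := by ring
    omega
  have hT : Tt F.A₀ (F.Th K) a₀ ℓst + j ≤ 2 ^ (3 * K) := by omega
  refine Vf_near hF.hA (by linarith [hF.h1, S.lo]) hax hx hT ?_
  have h3 : (((2 ^ (3 * K) : ℕ) : ℝ)) * 2 ≤ 2 ^ (K ^ 4) := by
    push_cast
    rw [← pow_succ]
    exact pow_le_pow_right₀ (by norm_num) hK4
  have h4 := S.sm
  have h5 := S.pos
  obtain ⟨Q, hQ⟩ : ∃ Q : ℝ, Q = ((2 ^ (3 * K) : ℕ) : ℝ) := ⟨_, rfl⟩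
  rw [← hQ] at h3 ⊢
  have h6 := mul_le_mul_of_nonneg_left h3 h5.le
  linarith

open Classical in
/-- the children on which the integer part of a monotone function is not constant -/
theorem few_floor {U : ℝ → ℝ} {a m : ℝ} {B N₀ : ℕ} (hm : 0 ≤ m) (hU : MonotoneOn U (Icc a (a + B * m))) :
    (((Finset.range B).filter fun b : ℕ => ¬ ∀ x ∈ Icc (a + b * m) (a + b * m + m),
      ⌊(N₀ : ℝ) * U x⌋ = ⌊(N₀ : ℝ) * U (a + b * m)⌋).card : ℝ) ≤ N₀ * (U (a + B * m) - U a) + 1 := by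
  obtain ⟨g, hg⟩ : ∃ g : ℕ → ℤ, ∀ b, g b = ⌊(N₀ : ℝ) * U (a + b * m)⌋ := ⟨_, fun _ => rfl⟩
  have hin : ∀ b : ℕ, b < B → ∀ x ∈ Icc (a + b * m) (a + b * m + m), x ∈ Icc a (a + B * m) := by
    intro b hb x hx
    have h1 : ((b : ℝ) + 1) ≤ B := by exact_mod_cast hb
    have h2 : 0 ≤ (b : ℝ) * m := by positivity
    have h3 : ((b : ℝ) + 1) * m ≤ B * m := mul_le_mul_of_nonneg_right h1 hm
    exact ⟨by linarith [hx.1], by linarith [hx.2]⟩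
  have hmono : ∀ b : ℕ, b < B → ∀ x ∈ Icc (a + b * m) (a + b * m + m), ∀ y ∈ Icc (a + b * m) (a + b * m + m), x ≤ y →
      ⌊(N₀ : ℝ) * U x⌋ ≤ ⌊(N₀ : ℝ) * U y⌋ := fun b hb x hx y hy hxy =>
    Int.floor_le_floor (mul_le_mul_of_nonneg_left (hU (hin b hb x hx) (hin b hb y hy) hxy) (Nat.cast_nonneg _))
  have hend : ∀ b : ℕ, a + ((b + 1 : ℕ) : ℝ) * m = a + b * m + m := by
    intro b
    push_cast
    ring
  have hstep : ∀ b ∈ Finset.range B, 0 ≤ g (b + 1) - g b := by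
    intro b hb
    rw [hg, hg, hend]
    have := hmono b (Finset.mem_range.1 hb) (a + b * m) ⟨le_rfl, by linarith⟩ (a + b * m + m) ⟨by linarith, le_rfl⟩ (by linarith)
    omega
  have hbad : ∀ b ∈ (Finset.range B).filter (fun b : ℕ => ¬ ∀ x ∈ Icc (a + b * m) (a + b * m + m),
      ⌊(N₀ : ℝ) * U x⌋ = ⌊(N₀ : ℝ) * U (a + b * m)⌋), 1 ≤ g (b + 1) - g b := by
    intro b hb
    rw [Finset.mem_filter, Finset.mem_range] at hb
    obtain ⟨hb1, hb2⟩ := hb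
    push Not at hb2
    obtain ⟨x, hx, hx2⟩ := hb2
    rw [hg, hg, hend]
    have h1 := hmono b hb1 (a + b * m) ⟨le_rfl, by linarith⟩ x hx hx.1
    have h2 := hmono b hb1 x hx (a + b * m + m) ⟨by linarith, le_rfl⟩ hx.2
    omega
  have h1 : (((Finset.range B).filter fun b : ℕ => ¬ ∀ x ∈ Icc (a + b * m) (a + b * m + m),
      ⌊(N₀ : ℝ) * U x⌋ = ⌊(N₀ : ℝ) * U (a + b * m)⌋).card : ℤ) ≤ g B - g 0 := by
    rw [← Finset.sum_range_sub]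
    obtain ⟨Z, hZ⟩ : ∃ Z : Finset ℕ, Z = (Finset.range B).filter (fun b : ℕ => ¬ ∀ x ∈ Icc (a + b * m) (a + b * m + m),
      ⌊(N₀ : ℝ) * U x⌋ = ⌊(N₀ : ℝ) * U (a + b * m)⌋) := ⟨_, rfl⟩
    have hZB : Z ⊆ Finset.range B := by
      rw [hZ]
      exact Finset.filter_subset _ _
    rw [← hZ] at hbad ⊢
    refine le_trans ?_ (Finset.sum_le_sum_of_subset_of_nonneg hZB fun b hb _ => hstep b hb)
    rw [Finset.card_eq_sum_ones]
    push_cast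
    exact Finset.sum_le_sum hbad
  have h2 : (((Finset.range B).filter fun b : ℕ => ¬ ∀ x ∈ Icc (a + b * m) (a + b * m + m),
      ⌊(N₀ : ℝ) * U x⌋ = ⌊(N₀ : ℝ) * U (a + b * m)⌋).card : ℝ) ≤ ((g B : ℤ) : ℝ) - ((g 0 : ℤ) : ℝ) := by
    exact_mod_cast h1
  refine h2.trans ?_
  have h3 : ((g B : ℤ) : ℝ) ≤ N₀ * U (a + B * m) := by
    rw [hg]
    exact Int.floor_le _
  have h4 : (N₀ : ℝ) * U a - 1 ≤ ((g 0 : ℤ) : ℝ) := by
    rw [hg]
    have := Int.sub_one_lt_floor ((N₀ : ℝ) * U (a + (0 : ℕ) * m))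
    simp only [Nat.cast_zero, zero_mul, add_zero] at this ⊢
    linarith
  linarith

variable {F : Pm} {K : ℕ} {a₀ ℓst a ℓ : ℝ}

/-- old times are slow -/
theorem old_slow (hF : F.Ok) (hK : F.Big K) (S : F.St K a₀ ℓst) {m : ℝ} (hm : 0 < m) {j : ℕ}
    (hj : j + F.R * F.E K < F.T K a₀ ℓst m + F.d) :
    j < F.T K a₀ ℓst m ∧ F.V K a₀ ℓst j a₀ * m * 2 ^ (20 * F.E K) ≤ 1 := by
  have hE := num_E F K
  have hdE : F.d ≤ F.E K := by
    unfold Pm.E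
    have := num_K hK
    nlinarith
  have hR : F.R * F.E K = F.X * (F.C₁ + 20) * F.E K + F.E K := by
    unfold Pm.R
    ring
  have hE1 : 1 ≤ F.E K := by
    have := num_K hK
    omega
  have hXE : 20 * F.E K ≤ F.X * (F.C₁ + 20) * F.E K := by
    have := hF.hX
    have h1 : 20 ≤ F.X * (F.C₁ + 20) := by nlinarith
    exact Nat.mul_le_mul_right _ h1
  have hjT : j < F.T K a₀ ℓst m := by omega
  refine ⟨hjT, ?_⟩
  obtain ⟨i, hi⟩ : ∃ i, F.T K a₀ ℓst m = j + 1 + i := ⟨F.T K a₀ ℓst m - (j + 1), by omega⟩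
  have hi2 : F.X * ((F.C₁ + 20) * F.E K) ≤ i := by
    have : F.X * ((F.C₁ + 20) * F.E K) = F.X * (F.C₁ + 20) * F.E K := by ring
    omega
  have hlt : Tt F.A₀ (F.Th K) a₀ ℓst + j + i < Tt F.A₀ (F.Th K) a₀ m := by
    unfold Pm.T at hi
    omega
  have h1 := lt_Tt hlt
  have ha0 : 0 < a₀ := by linarith [hF.h1, S.lo]
  have ha1 : 1 ≤ a₀ := by linarith [hF.h1, S.lo]
  have h2 := Vf_step (n := Tt F.A₀ (F.Th K) a₀ ℓst + j) (n' := Tt F.A₀ (F.Th K) a₀ ℓst + j + i) hF.hA ha0 (by omega)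
  rw [Nat.add_sub_cancel_left] at h2
  have hV : F.V K a₀ ℓst j a₀ = Vf F.A₀ (Tt F.A₀ (F.Th K) a₀ ℓst + j) a₀ := rfl
  have hV0 : 0 ≤ F.V K a₀ ℓst j a₀ := by
    rw [hV]
    exact Vf_nonneg hF.hA ha0
  have h3 : (2 : ℝ) ^ ((F.C₁ + 20) * F.E K) ≤ a₀ ^ i := by
    calc (2 : ℝ) ^ ((F.C₁ + 20) * F.E K) ≤ (F.x₁ ^ F.X) ^ ((F.C₁ + 20) * F.E K) :=
          pow_le_pow_left₀ (by norm_num) hF.hx1 _
      _ = F.x₁ ^ (F.X * ((F.C₁ + 20) * F.E K)) := (pow_mul _ _ _).symm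
      _ ≤ a₀ ^ (F.X * ((F.C₁ + 20) * F.E K)) := pow_le_pow_left₀ (by linarith [hF.h1]) S.lo _
      _ ≤ a₀ ^ i := pow_le_pow_right₀ ha1 hi2
  have h4 : F.V K a₀ ℓst j a₀ * m * (2 ^ (F.C₁ * F.E K) * 2 ^ (20 * F.E K)) ≤ 2 ^ (F.C₁ * F.E K) := by
    calc F.V K a₀ ℓst j a₀ * m * (2 ^ (F.C₁ * F.E K) * 2 ^ (20 * F.E K))
        = F.V K a₀ ℓst j a₀ * m * 2 ^ ((F.C₁ + 20) * F.E K) := by
          rw [← pow_add]
          congr 2
          ring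
      _ ≤ F.V K a₀ ℓst j a₀ * m * a₀ ^ i := mul_le_mul_of_nonneg_left h3 (mul_nonneg hV0 hm.le)
      _ = Vf F.A₀ (Tt F.A₀ (F.Th K) a₀ ℓst + j) a₀ * a₀ ^ i * m := by
          rw [hV]
          ring
      _ ≤ Vf F.A₀ (Tt F.A₀ (F.Th K) a₀ ℓst + j + i) a₀ * m := mul_le_mul_of_nonneg_right h2 hm.le
      _ ≤ F.Th K := h1.le
      _ = 2 ^ (F.C₁ * F.E K) := rfl
  have h5 : (0 : ℝ) < 2 ^ (F.C₁ * F.E K) := by positivity
  have h6 : F.V K a₀ ℓst j a₀ * m * 2 ^ (20 * F.E K) * 2 ^ (F.C₁ * F.E K) ≤ 1 * 2 ^ (F.C₁ * F.E K) := by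
    linarith
  exact le_of_mul_le_mul_right h6 h5

open Classical in
theorem stage_nb6 (hF : F.Ok) (hK : F.Big K) (S : F.St K a₀ ℓst) (hℓ : 0 < ℓ) (h1 : a₀ ≤ a) (h2 : a + ℓ ≤ a₀ + ℓst)
    (hcount : F.T K a₀ ℓst (ℓ / 2 ^ (K ^ 3)) + F.R * F.E K ≤ 2 ^ (2 * K)) :
    (((Finset.range (2 ^ (K ^ 3))).filter fun b : ℕ => ¬ NBg (F.U K a₀ ℓst) (F.T K a₀ ℓst (ℓ / 2 ^ (K ^ 3)) + F.d) (F.R * F.E K) (2 ^ K)
      (a + b * (ℓ / (2 ^ (K ^ 3) : ℕ))) (ℓ / (2 ^ (K ^ 3) : ℕ))).card : ℝ) ≤ (1 / 2) ^ (3 * F.E K) * (2 ^ (K ^ 3) : ℕ) := by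
  obtain ⟨B, hB⟩ : ∃ B : ℕ, B = 2 ^ (K ^ 3) := ⟨_, rfl⟩
  have hBr : (2 : ℝ) ^ (K ^ 3) = (B : ℝ) := by
    rw [hB]
    push_cast
    rfl
  rw [← hB]
  rw [hBr] at hcount ⊢
  have hB0 : (0 : ℝ) < B := by
    rw [← hBr]
    positivity
  obtain ⟨m, hm⟩ : ∃ m : ℝ, m = ℓ / (B : ℝ) := ⟨_, rfl⟩
  rw [← hm] at hcount ⊢
  have hm0 : 0 < m := by
    rw [hm]
    positivity
  have hBm : (B : ℝ) * m = ℓ := by
    rw [hm]
    field_simp
  obtain ⟨J, hJ⟩ : ∃ J : ℕ, J = F.T K a₀ ℓst m + F.d - F.R * F.E K := ⟨_, rfl⟩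
  have hJ' : ∀ j, j < J ↔ j + F.R * F.E K < F.T K a₀ ℓst m + F.d := by
    intro j
    omega
  -- the union over the old times
  have hsub : ((Finset.range B).filter fun b : ℕ => ¬ NBg (F.U K a₀ ℓst) (F.T K a₀ ℓst m + F.d) (F.R * F.E K) (2 ^ K)
      (a + b * m) m) ⊆ (Finset.range J).biUnion fun j => (Finset.range B).filter fun b : ℕ =>
        ¬ ∀ x ∈ Icc (a + b * m) (a + b * m + m),
          ⌊((2 ^ K : ℕ) : ℝ) * F.U K a₀ ℓst j x⌋ = ⌊((2 ^ K : ℕ) : ℝ) * F.U K a₀ ℓst j (a + b * m)⌋ := by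
    intro b hb
    rw [Finset.mem_filter] at hb
    obtain ⟨hb1, hb2⟩ := hb
    unfold NBg at hb2
    push Not at hb2
    obtain ⟨j, hj, x, hx, hx2⟩ := hb2
    rw [Finset.mem_biUnion]
    refine ⟨j, Finset.mem_range.2 ((hJ' j).2 hj), ?_⟩
    rw [Finset.mem_filter]
    exact ⟨hb1, fun h => hx2 (h x hx)⟩
  have ha0 : 0 < a₀ := by linarith [hF.h1, S.lo]
  have hcard : ∀ j < J, (((Finset.range B).filter fun b : ℕ =>
        ¬ ∀ x ∈ Icc (a + b * m) (a + b * m + m),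
          ⌊((2 ^ K : ℕ) : ℝ) * F.U K a₀ ℓst j x⌋ = ⌊((2 ^ K : ℕ) : ℝ) * F.U K a₀ ℓst j (a + b * m)⌋).card : ℝ) ≤
        2 ^ K * (2 * B * (1 / 2) ^ (20 * F.E K)) + 1 := by
    intro j hj
    obtain ⟨hj1, hj2⟩ := old_slow hF hK S hm0 ((hJ' j).1 hj)
    have hmo : MonotoneOn (F.U K a₀ ℓst j) (Icc a (a + B * m)) := by
      intro x hx y hy hxy
      exact Uf_mono hF.hA (by linarith [hx.1]) hxy
    refine (few_floor (N₀ := 2 ^ K) hm0.le hmo).trans ?_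
    rw [hBm]
    have h3 : F.U K a₀ ℓst j (a + ℓ) - F.U K a₀ ℓst j a ≤ F.V K a₀ ℓst j (a + ℓ) * ℓ := by
      have := Uf_sub (A₀ := F.A₀) (x := a) (y := a + ℓ) (c := F.c) (n := Tt F.A₀ (F.Th K) a₀ ℓst + j) hF.hA (by linarith) (by linarith)
      rw [add_sub_cancel_left] at this
      exact this
    have h4 := V_end (j := j) hF hK S (show a₀ ≤ a + ℓ by linarith) h2 (by omega)
    have h5 : F.V K a₀ ℓst j a₀ * m ≤ (1 / 2) ^ (20 * F.E K) := by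
      have h6 : (0 : ℝ) < 2 ^ (20 * F.E K) := by positivity
      have h7 : ((1 : ℝ) / 2) ^ (20 * F.E K) = 1 / 2 ^ (20 * F.E K) := by
        rw [div_pow, one_pow]
      rw [h7, le_div_iff₀ h6]
      exact hj2
    have h8 : F.U K a₀ ℓst j (a + ℓ) - F.U K a₀ ℓst j a ≤ 2 * B * (1 / 2) ^ (20 * F.E K) := by
      refine h3.trans ?_
      calc F.V K a₀ ℓst j (a + ℓ) * ℓ ≤ 2 * F.V K a₀ ℓst j a₀ * ℓ := mul_le_mul_of_nonneg_right h4 hℓ.le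
        _ = 2 * B * (F.V K a₀ ℓst j a₀ * m) := by
            rw [← hBm]
            ring
        _ ≤ 2 * B * (1 / 2) ^ (20 * F.E K) := mul_le_mul_of_nonneg_left h5 (by positivity)
    have h9 : ((2 ^ K : ℕ) : ℝ) = 2 ^ K := by push_cast; rfl
    rw [h9]
    have h10 : (0 : ℝ) ≤ 2 ^ K := by positivity
    linarith [mul_le_mul_of_nonneg_left h8 h10]
  have hJ2 : (J : ℝ) ≤ 2 ^ (2 * K) := by
    have : J ≤ 2 ^ (2 * K) := by
      by_cases h0 : J = 0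
      · rw [h0]
        exact Nat.zero_le _
      · have := (old_slow hF hK S hm0 ((hJ' (J - 1)).1 (by omega))).1
        omega
    exact_mod_cast this
  have hE4 := (num_E F K).1
  have hEZ := (num_E F K).2.1
  have hZ := (num_Z hK).2.2
  have hK12 := num_K hK
  have htot : (((Finset.range B).filter fun b : ℕ => ¬ NBg (F.U K a₀ ℓst) (F.T K a₀ ℓst m + F.d) (F.R * F.E K) (2 ^ K)
      (a + b * m) m).card : ℝ) ≤ J * (2 ^ K * (2 * B * (1 / 2) ^ (20 * F.E K)) + 1) := by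
    have h3 : (((Finset.range B).filter fun b : ℕ => ¬ NBg (F.U K a₀ ℓst) (F.T K a₀ ℓst m + F.d) (F.R * F.E K) (2 ^ K)
      (a + b * m) m).card : ℝ) ≤ ∑ j ∈ Finset.range J, (((Finset.range B).filter fun b : ℕ =>
        ¬ ∀ x ∈ Icc (a + b * m) (a + b * m + m),
          ⌊((2 ^ K : ℕ) : ℝ) * F.U K a₀ ℓst j x⌋ = ⌊((2 ^ K : ℕ) : ℝ) * F.U K a₀ ℓst j (a + b * m)⌋).card : ℝ) := by
      exact_mod_cast (Finset.card_le_card hsub).trans Finset.card_biUnion_le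
    refine h3.trans ((Finset.sum_le_sum fun j hj => hcard j (Finset.mem_range.1 hj)).trans ?_)
    rw [Finset.sum_const, Finset.card_range, nsmul_eq_mul]
  refine htot.trans ?_
  obtain ⟨E, hEE⟩ : ∃ E, E = F.E K := ⟨_, rfl⟩
  rw [← hEE] at hE4 hEZ ⊢
  have hEK : 4 * E + 1 ≤ K ^ 3 := by
    have h3 : E ≤ K * K := hEZ.trans (Nat.mul_le_mul_right _ hZ)
    have h4 : 5 * (K * K) ≤ K ^ 3 := by
      have : K ^ 3 = K * (K * K) := by ring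
      rw [this]
      exact Nat.mul_le_mul_right _ (by omega)
    have h5 : 1 ≤ K * K := by nlinarith
    omega
  have hBE : (2 : ℝ) ^ (4 * E + 1) ≤ B := by
    rw [← hBr]
    exact pow_le_pow_right₀ (by norm_num) hEK
  have hp1 : (0 : ℝ) < (1 / 2) ^ (3 * E) := by positivity
  -- first term
  have t1 : (2 : ℝ) ^ (2 * K) * (2 ^ K * (2 * B * (1 / 2) ^ (20 * E))) ≤ 1 / 2 * ((1 / 2) ^ (3 * E) * B) := by
    have e1 : (2 : ℝ) ^ (2 * K) * (2 ^ K * (2 * B * (1 / 2) ^ (20 * E))) =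
        1 / 2 * ((1 / 2) ^ (3 * E) * B) * (2 ^ (3 * K + 2) * (1 / 2) ^ (17 * E)) := by
      have : (20 * E) = 3 * E + 17 * E := by ring
      rw [this, pow_add]
      have e2 : (2 : ℝ) ^ (3 * K + 2) = 2 ^ (2 * K) * 2 ^ K * 4 := by
        have : 3 * K + 2 = 2 * K + K + 2 := by ring
        rw [this, pow_add, pow_add]
        norm_num
      rw [e2]
      ring
    rw [e1]
    have e3 : (2 : ℝ) ^ (3 * K + 2) * (1 / 2) ^ (17 * E) ≤ 1 := by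
      have e4 : (2 : ℝ) ^ (3 * K + 2) ≤ 2 ^ (17 * E) := pow_le_pow_right₀ (by norm_num) (by omega)
      calc (2 : ℝ) ^ (3 * K + 2) * (1 / 2) ^ (17 * E) ≤ 2 ^ (17 * E) * (1 / 2) ^ (17 * E) := by gcongr
        _ = 1 := by
            rw [← mul_pow]
            norm_num
    exact mul_le_of_le_one_right (by positivity) e3
  have t2 : (2 : ℝ) ^ (2 * K) ≤ 1 / 2 * ((1 / 2) ^ (3 * E) * B) := by
    have e1 : (2 : ℝ) ^ (2 * K) ≤ 2 ^ E := pow_le_pow_right₀ (by norm_num) (by omega)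
    have e2 : (1 : ℝ) / 2 * ((1 / 2) ^ (3 * E) * 2 ^ (4 * E + 1)) = 2 ^ E := by
      have : 4 * E + 1 = 3 * E + E + 1 := by ring
      rw [this, pow_add, pow_add]
      have e3 : ((1 : ℝ) / 2) ^ (3 * E) * 2 ^ (3 * E) = 1 := by
        rw [← mul_pow]
        norm_num
      linear_combination (2 : ℝ) ^ E * e3
    calc (2 : ℝ) ^ (2 * K) ≤ 2 ^ E := e1
      _ = 1 / 2 * ((1 / 2) ^ (3 * E) * 2 ^ (4 * E + 1)) := e2.symm
      _ ≤ 1 / 2 * ((1 / 2) ^ (3 * E) * B) := by gcongr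
  have h0 : 0 ≤ 2 ^ K * (2 * (B : ℝ) * (1 / 2) ^ (20 * E)) + 1 := by positivity
  calc (J : ℝ) * (2 ^ K * (2 * B * (1 / 2) ^ (20 * E)) + 1) ≤ 2 ^ (2 * K) * (2 ^ K * (2 * B * (1 / 2) ^ (20 * E)) + 1) :=
        mul_le_mul_of_nonneg_right hJ2 h0
    _ = 2 ^ (2 * K) * (2 ^ K * (2 * B * (1 / 2) ^ (20 * E))) + 2 ^ (2 * K) := by ring
    _ ≤ (1 / 2) ^ (3 * E) * B := by linarith

end Pool.Agent.Helper4.LD6
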